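import Pool.Agent.R597.SP
import Pool.Agent.R597.Cmp
import Pool.Agent.R597.Fr9

/-!
# Strongly proper forcing does not preserve winning strategies of II in the Menger game

Let `M` be a countable transitive model of ZFC, let `P` be Cohen forcing in `M` and let `X` be the
Cantor space of `M`, with its topology `τ ∈ M`. In `M` the space is compact, so that II has a
winning strategy in the Menger game, and `P` is strongly proper for stationarily many models. In
the generic extension `M[G]` the set `X` is not meager, and player II has no winning strategy in
the Menger game on `X` with the topology generated by `τ`.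
-/

set_option autoImplicit false

namespace Pool.Agent.Results.MP_18f314_lc.CohenKillsMengerStrategies

open Pool.Agent.W868 Pool.Agent.W868.GM Pool.Agent.Y588 Pool.Agent.R597
open ZFSet (pair)

/-- There are countable transitive models of ZFC, and in each of them there are a notion of forcing
`P` that is strongly proper for stationarily many models, and a topological space `(X, τ)` on
which player II has a winning strategy in the Menger game, such that every condition of `P` is in
a generic filter, and in all `P`-generic extensions `M[G]` (they are models of ZFC) player II has
no winning strategy in the Menger game on the set `X` with the topology generated by `τ`. -/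
theorem result :
    (∃ M : ZFSet.{0}, {x | x ∈ M}.Countable ∧ IsZFC {x | x ∈ M}) ∧
    ∀ M : Set ZFSet.{0}, M.Countable → IsZFC M →
      ∃ P Le X τ : ZFSet.{0}, IsForcing M P Le ∧ StrProper M P Le ∧ IsTop M X τ ∧
        MengerII M X τ ∧ (∀ p ∈ P, ∃ G, IsGeneric M P Le G ∧ p ∈ G) ∧
        ∀ G, IsGeneric M P Le G → IsZFC (ext M G) ∧ ¬ MengerII (ext M G) X τ := by
  refine ⟨exists_ctm, fun M hc hM => ?_⟩
  have hF := forcing_Pc hM.toIsZF
  exact ⟨Pc, Lc, fnX M (nat 2), Tc M, hF, strProper_Pc hM, isTop_Tc hM.toIsZF, menger_ground hM,
    fun p hp => exists_gen hc hF hp, fun G hG => ⟨isZFC_ext hM hF hG, not_menger hM hG⟩⟩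

end Pool.Agent.Results.MP_18f314_lc.CohenKillsMengerStrategies
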